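import Mathlib
import Pool.Agent.Helper475.Asdim
import Pool.Agent.Helper475.Geod
import Pool.Agent.Helper475.Torsion

set_option autoImplicit false

namespace Pool.Agent.Results.MP_ac3292_al.NoSplit

/-! ## Definitions used in the statement -/

/-- The Cayley graph of a group with respect to a finite set `S` (used with `S` generating). -/
def cayley {G : Type} [Group G] (S : Finset G) : SimpleGraph G :=
  SimpleGraph.fromRel (fun g h : G => g⁻¹ * h ∈ S)

/-- `asdim Y ≤ k` for a set `Y` of vertices of a graph, with the restricted path metric: for every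
`R` there is a cover of `Y` by subsets of uniformly bounded diameter such that every ball of
radius `R` of `Y` meets at most `k + 1` of them. -/
def AsdimLE {V : Type} (Γ : SimpleGraph V) (Y : Set V) (k : ℕ) : Prop :=
  ∀ R : ℕ, ∃ (ι : Type) (U : ι → Set V) (D : ℕ),
    (∀ i, U i ⊆ Y) ∧ (∀ y ∈ Y, ∃ i, y ∈ U i) ∧
    (∀ i, ∀ x ∈ U i, ∀ y ∈ U i, Γ.dist x y ≤ D) ∧
    ∀ y ∈ Y, {i : ι | ∃ z ∈ U i, Γ.dist y z ≤ R}.encard ≤ ((k + 1 : ℕ) : ℕ∞)

/-- `X` coarsely separates the graph: for some `r > 0` the complement of the closed
`r`-neighbourhood of `X` has two different connected components, each of which contains vertices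
at arbitrarily large distance from `X`. -/
def CoarselySeparates {V : Type} (Γ : SimpleGraph V) (X : Set V) : Prop :=
  ∃ r : ℕ, 0 < r ∧
    ∃ C₁ C₂ : (Γ.induce {v : V | ∀ x ∈ X, r < Γ.dist v x}).ConnectedComponent, C₁ ≠ C₂ ∧
      (∀ D : ℕ, ∃ v ∈ C₁.supp, ∀ x ∈ X, D < Γ.dist v.1 x) ∧
      (∀ D : ℕ, ∃ v ∈ C₂.supp, ∀ x ∈ X, D < Γ.dist v.1 x)

/-- `G` is a nontrivial amalgamated free product `P₀ *_H P₁` over its subgroup `H`: there are
injective non-surjective maps of `H` to two groups and an isomorphism of the amalgamated product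
(the pushout of groups) with `G` that restricts to the inclusion on `H`. -/
def SplitsAsAmalgam {G : Type} [Group G] (H : Subgroup G) : Prop :=
  ∃ (P : Bool → Type) (_ : ∀ i, Group (P i)) (φ : ∀ i, H →* P i),
    (∀ i, Function.Injective (φ i)) ∧ (∀ i, ¬ Function.Surjective (φ i)) ∧
    ∃ e : Monoid.PushoutI φ ≃* G, ∀ h : H, e (Monoid.PushoutI.base φ h) = h

/-- `G` is an HNN extension over its subgroup `H`: the associated subgroup `C` of the base group
is carried to `H` by an isomorphism of the HNN extension with `G`. -/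
def SplitsAsHNN {G : Type} [Group G] (H : Subgroup G) : Prop :=
  ∃ (B : Type) (_ : Group B) (C D : Subgroup B) (φ : C ≃* D) (e : HNNExtension B C D φ ≃* G),
    H = (C.map HNNExtension.of).map e.toMonoidHom

/-- `G` splits over `H`. -/
def SplitsOver {G : Type} [Group G] (H : Subgroup G) : Prop :=
  SplitsAsAmalgam H ∨ SplitsAsHNN H

/-! ## A torsion group does not split -/

section NoSplitting

variable {G : Type} [Group G]

open Monoid

theorem torsion_not_hnn (hG : ∀ g : G, IsOfFinOrder g) (H : Subgroup G) : ¬ SplitsAsHNN H := by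
  rintro ⟨B, _, C, D, φ, e, -⟩
  have h1 := hG (e HNNExtension.t)
  obtain ⟨m, hm, h2⟩ := isOfFinOrder_iff_pow_eq_one.1 h1
  rw [← map_pow] at h2
  have h3 : (HNNExtension.t : HNNExtension B C D φ) ^ m = 1 := by
    apply e.injective
    rw [h2, map_one]
  let s : Multiplicative ℤ := Multiplicative.ofAdd (1 : ℤ)
  let F : HNNExtension B C D φ →* Multiplicative ℤ :=
    HNNExtension.lift (1 : B →* Multiplicative ℤ) s (by intro a; simp)
  have h4 : F HNNExtension.t = s := HNNExtension.lift_t _ _ _
  have h5 := congrArg F h3
  rw [map_pow, h4, map_one] at h5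
  have h6 : (m : ℤ) * 1 = 0 := by
    have h7 : Multiplicative.toAdd (s ^ m) = Multiplicative.toAdd (1 : Multiplicative ℤ) := by
      rw [h5]
    rw [toAdd_pow, toAdd_one, nsmul_eq_mul] at h7
    exact h7
  omega

theorem torsion_not_amalgam (hG : ∀ g : G, IsOfFinOrder g) (H : Subgroup G) :
    ¬ SplitsAsAmalgam H := by
  classical
  rintro ⟨P, _, φ, hinj, hsurj, e, -⟩
  have ha := hsurj true
  have hb := hsurj false
  rw [Function.Surjective] at ha hb
  push Not at ha hb
  obtain ⟨a, ha⟩ := ha
  obtain ⟨b, hb⟩ := hb
  have ha' : a ∉ (φ true).range := by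
    rintro ⟨h, rfl⟩; exact ha h rfl
  have hb' : b ∉ (φ false).range := by
    rintro ⟨h, rfl⟩; exact hb h rfl
  have ha1 : a ≠ 1 := by rintro rfl; exact ha' (one_mem _)
  have hb1 : b ≠ 1 := by rintro rfl; exact hb' (one_mem _)
  let L : ℕ → List (Σ i, P i) := fun m =>
    (List.replicate m [(⟨true, a⟩ : Σ i, P i), ⟨false, b⟩]).flatten
  have hLsucc : ∀ m, L (m + 1) = ⟨true, a⟩ :: ⟨false, b⟩ :: L m := by
    intro m; simp [L, List.replicate_succ]
  have hLmem : ∀ m, ∀ g ∈ L m, g = ⟨true, a⟩ ∨ g = ⟨false, b⟩ := by
    intro m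
    induction m with
    | zero => intro g hg; simp [L] at hg
    | succ m ih =>
      intro g hg
      rw [hLsucc] at hg
      rcases List.mem_cons.1 hg with h | hg
      · exact Or.inl h
      rcases List.mem_cons.1 hg with h | hg
      · exact Or.inr h
      · exact ih g hg
  have hLhead : ∀ m, ∀ g ∈ (L m).head?, g = ⟨true, a⟩ := by
    intro m g hg
    cases m with
    | zero => simp [L] at hg
    | succ m => rw [hLsucc] at hg; simpa [eq_comm] using hg
  have hLchain : ∀ m, (L m).IsChain (fun l l' => l.1 ≠ l'.1) := by
    intro m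
    induction m with
    | zero => simp [L]
    | succ m ih =>
      rw [hLsucc, List.isChain_cons_cons]
      refine ⟨by simp, ?_⟩
      rw [List.isChain_cons]
      refine ⟨?_, ih⟩
      intro g hg
      rw [hLhead m g hg]
      simp
  let w : ℕ → CoprodI.Word P := fun m =>
    { toList := L m
      ne_one := by
        intro g hg
        rcases hLmem m g hg with rfl | rfl
        · exact ha1
        · exact hb1
      chain_ne := hLchain m }
  have hwprod : ∀ m, PushoutI.ofCoprodI (φ := φ) (w m).prod =
      (PushoutI.of true a * PushoutI.of false b) ^ m := by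
    intro m
    have : (w m).prod = (CoprodI.of a * CoprodI.of b) ^ m := by
      change ((L m).map fun l => CoprodI.of l.2).prod = _
      induction m with
      | zero => simp [L]
      | succ m ih =>
        rw [hLsucc, List.map_cons, List.map_cons, List.prod_cons, List.prod_cons, ih, pow_succ',
          mul_assoc]
    rw [this, map_pow, map_mul, PushoutI.ofCoprodI_of, PushoutI.ofCoprodI_of]
  have hred : ∀ m, PushoutI.Reduced φ (w m) := by
    intro m g hg
    rcases hLmem m g hg with rfl | rfl
    · exact ha'
    · exact hb'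
  obtain ⟨m, hm, h2⟩ := isOfFinOrder_iff_pow_eq_one.1
    (hG (e (PushoutI.of true a * PushoutI.of false b)))
  rw [← map_pow] at h2
  have h3 : (PushoutI.of (φ := φ) true a * PushoutI.of false b) ^ m = 1 := by
    apply e.injective
    rw [h2, map_one]
  have h4 := PushoutI.Reduced.eq_empty_of_mem_range hinj (hred m)
    (by rw [hwprod, h3]; exact one_mem _)
  have h5 : L m = [] := congrArg CoprodI.Word.toList h4
  obtain ⟨k, rfl⟩ : ∃ k, m = k + 1 := ⟨m - 1, by omega⟩
  rw [hLsucc] at h5
  exact absurd h5 (by simp)

theorem torsion_not_splits (hG : ∀ g : G, IsOfFinOrder g) (H : Subgroup G) : ¬ SplitsOver H := by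
  rintro (h | h)
  · exact torsion_not_amalgam hG H h
  · exact torsion_not_hnn hG H h

end NoSplitting

/-! ## Lipschitz functions on graphs -/

theorem lip_of_edges {V : Type} (Γ : SimpleGraph V) (hΓ : Γ.Connected) (F : V → V → ℕ)
    (h0 : ∀ a, F a a = 0) (htri : ∀ a b c, F a c ≤ F a b + F b c)
    (h : ∀ a b, Γ.Adj a b → F a b ≤ 1) (a b : V) : F a b ≤ Γ.dist a b := by
  obtain ⟨p, hp⟩ := hΓ.exists_walk_length_eq_dist a b
  rw [← hp]
  clear hp
  induction p with
  | nil => rw [h0]; exact Nat.zero_le _
  | @cons a b c hab q ih =>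
    have h1 := h a b hab
    have h2 := htri a b c
    rw [SimpleGraph.Walk.length_cons]
    omega

theorem cayley_adj {G : Type} [Group G] (S : Finset G) (a b : G) :
    (cayley S).Adj a b ↔ a ≠ b ∧ (a⁻¹ * b ∈ S ∨ b⁻¹ * a ∈ S) := by
  rw [cayley, SimpleGraph.fromRel_adj]

theorem cayley_connected {G : Type} [Group G] (S : Finset G)
    (hS : Subgroup.closure (S : Set G) = ⊤) : (cayley S).Connected :=
  Pool.Agent.Helper475.Geod.gr_connected S hS

theorem cayley_dist_left {G : Type} [Group G] (S : Finset G)
    (hS : Subgroup.closure (S : Set G) = ⊤) (h a b : G) :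
    (cayley S).dist (h * a) (h * b) = (cayley S).dist a b :=
  Pool.Agent.Helper475.Geod.dist_left S hS h a b

/-! ## Powers of a group -/

section Power

variable {T : Type} [Group T] (S : Finset T) (n : ℕ)

/-- Generators of the power. -/
noncomputable def gensA : Finset (Fin n → T) := by
  classical
  exact (Finset.univ ×ˢ S).image (fun p : Fin n × T => Pi.mulSingle p.1 p.2)

theorem mem_gensA (a : Fin n → T) : a ∈ gensA S n ↔ ∃ i : Fin n, ∃ s ∈ S, a = Pi.mulSingle i s := by
  classical
  simp only [gensA, Finset.mem_image, Finset.mem_product, Finset.mem_univ, true_and]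
  constructor
  · rintro ⟨⟨i, s⟩, h1, h2⟩
    exact ⟨i, s, h1, h2.symm⟩
  · rintro ⟨i, s, h1, h2⟩
    exact ⟨(i, s), h1, h2.symm⟩

theorem gensA_closure (hS : Subgroup.closure (S : Set T) = ⊤) :
    Subgroup.closure (gensA S n : Set (Fin n → T)) = ⊤ := by
  classical
  rw [eq_top_iff]
  intro a _
  refine Subgroup.pi_mem_of_mulSingle_mem a (fun i => ?_)
  have ht : a i ∈ Subgroup.closure (S : Set T) := by rw [hS]; trivial
  generalize a i = t at ht
  induction ht using Subgroup.closure_induction with
  | mem x hx => exact Subgroup.subset_closure ((mem_gensA S n _).2 ⟨i, x, hx, rfl⟩)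
  | one => rw [Pi.mulSingle_one]; exact Subgroup.one_mem _
  | mul x y _ _ hx hy => rw [Pi.mulSingle_mul]; exact Subgroup.mul_mem _ hx hy
  | inv x _ hx => rw [Pi.mulSingle_inv]; exact Subgroup.inv_mem _ hx

variable (hS : Subgroup.closure (S : Set T) = ⊤)

include hS

theorem coord_lip (i : Fin n) (a b : Fin n → T) :
    (cayley S).dist (a i) (b i) ≤ (cayley (gensA S n)).dist a b := by
  classical
  have hconn := cayley_connected S hS
  refine lip_of_edges _ (cayley_connected _ (gensA_closure S n hS))
    (fun a b => (cayley S).dist (a i) (b i)) (fun a => SimpleGraph.dist_self)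
    (fun a b c => hconn.dist_triangle) ?_ a b
  have key : ∀ x y : Fin n → T, x⁻¹ * y ∈ gensA S n → (cayley S).dist (x i) (y i) ≤ 1 := by
    intro x y hxy
    rw [mem_gensA] at hxy
    obtain ⟨j, s, hs, hxy⟩ := hxy
    have hy : y = x * Pi.mulSingle j s := by rw [← hxy, mul_inv_cancel_left]
    by_cases hxy' : x i = y i
    · rw [hxy', SimpleGraph.dist_self]; omega
    · refine (SimpleGraph.dist_eq_one_iff_adj.2 ?_).le
      rw [cayley_adj]
      refine ⟨hxy', Or.inl ?_⟩
      have hij : i = j := by
        by_contra hne
        apply hxy'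
        rw [hy, Pi.mul_apply, Pi.mulSingle_eq_of_ne hne, mul_one]
      subst hij
      rw [hy, Pi.mul_apply, Pi.mulSingle_eq_same, inv_mul_cancel_left]
      exact hs
  intro a b hab
  rw [cayley_adj] at hab
  rcases hab.2 with h | h
  · exact key a b h
  · change (cayley S).dist (a i) (b i) ≤ 1
    rw [SimpleGraph.dist_comm]
    exact key b a h

variable (γ : ℤ → T) (hγ : ∀ i j : ℤ, (cayley S).dist (γ i) (γ j) = (i - j).natAbs)

include hγ

theorem flat_low (z z' : Fin n → ℤ) (i : Fin n) :
    (z i - z' i).natAbs ≤ (cayley (gensA S n)).dist (fun i => γ (z i)) (fun i => γ (z' i)) := by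
  have h := coord_lip S n hS i (fun i => γ (z i)) (fun i => γ (z' i))
  rw [hγ] at h
  exact h

omit hS in
theorem flat_adj (z : Fin n → ℤ) (i : Fin n) :
    (cayley (gensA S n)).Adj (fun j => γ (z j))
      (fun j => γ ((Function.update z i (z i + 1)) j)) := by
  classical
  have hadj : (cayley S).Adj (γ (z i)) (γ (z i + 1)) := by
    rw [← SimpleGraph.dist_eq_one_iff_adj, hγ]
    simp
  rw [cayley_adj] at hadj ⊢
  refine ⟨?_, ?_⟩
  · intro h
    have h1 := congrFun h i
    simp only [Function.update_self] at h1
    exact hadj.1 h1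
  · rcases hadj.2 with h | h
    · left
      rw [mem_gensA]
      refine ⟨i, _, h, ?_⟩
      funext j
      by_cases hj : j = i
      · subst hj; simp
      · simp [Function.update_of_ne hj, Pi.mulSingle_eq_of_ne hj]
    · right
      rw [mem_gensA]
      refine ⟨i, _, h, ?_⟩
      funext j
      by_cases hj : j = i
      · subst hj; simp
      · simp [Function.update_of_ne hj, Pi.mulSingle_eq_of_ne hj]

theorem flat_move_nat (z : Fin n → ℤ) (i : Fin n) (m : ℕ) :
    (cayley (gensA S n)).dist (fun j => γ (z j))
      (fun j => γ ((Function.update z i (z i + m)) j)) ≤ m := by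
  classical
  induction m with
  | zero => simp
  | succ m ih =>
    have h1 := (SimpleGraph.dist_eq_one_iff_adj.2
      (flat_adj S n γ hγ (Function.update z i (z i + m)) i)).le
    have h2 := (cayley_connected _ (gensA_closure S n hS)).dist_triangle
      (u := fun j => γ (z j)) (v := fun j => γ ((Function.update z i (z i + m)) j))
      (w := fun j => γ ((Function.update (Function.update z i (z i + m)) i
        ((Function.update z i (z i + m)) i + 1)) j))
    rw [Function.update_idem, Function.update_self] at h1 h2
    have e : z i + ((m + 1 : ℕ) : ℤ) = z i + m + 1 := by push_cast; ring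
    rw [e]
    omega

theorem flat_move (z : Fin n → ℤ) (i : Fin n) (t : ℤ) :
    (cayley (gensA S n)).dist (fun j => γ (z j)) (fun j => γ ((Function.update z i t) j)) ≤
      (z i - t).natAbs := by
  classical
  rcases le_total (z i) t with h | h
  · have h1 := flat_move_nat S n hS γ hγ z i (t - z i).toNat
    have e : z i + ((t - z i).toNat : ℤ) = t := by omega
    rw [e] at h1
    omega
  · have h1 := flat_move_nat S n hS γ hγ (Function.update z i t) i (z i - t).toNat
    rw [Function.update_self, Function.update_idem] at h1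
    have e : t + ((z i - t).toNat : ℤ) = z i := by omega
    rw [e, Function.update_eq_self, SimpleGraph.dist_comm] at h1
    omega

theorem flat_up_aux (z z' : Fin n → ℤ) (s : Finset (Fin n)) :
    (cayley (gensA S n)).dist (fun j => γ (z j)) (fun j => γ (if j ∈ s then z' j else z j)) ≤
      ∑ i ∈ s, (z i - z' i).natAbs := by
  classical
  induction s using Finset.induction_on with
  | empty => simp
  | insert a s ha ih =>
    have e : (fun j => γ (if j ∈ insert a s then z' j else z j)) =
        fun j => γ ((Function.update (fun i => if i ∈ s then z' i else z i) a (z' a)) j) := by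
      funext i
      by_cases hi : i = a
      · subst hi; simp
      · rw [Function.update_of_ne hi]
        simp [Finset.mem_insert, hi]
    rw [e, Finset.sum_insert ha]
    have h1 := flat_move S n hS γ hγ (fun i => if i ∈ s then z' i else z i) a (z' a)
    rw [if_neg ha] at h1
    have h2 := (cayley_connected _ (gensA_closure S n hS)).dist_triangle (u := fun j => γ (z j))
      (v := fun j => γ (if j ∈ s then z' j else z j))
      (w := fun j => γ ((Function.update (fun i => if i ∈ s then z' i else z i) a (z' a)) j))
    omega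

theorem flat_up (z z' : Fin n → ℤ) :
    (cayley (gensA S n)).dist (fun j => γ (z j)) (fun j => γ (z' j)) ≤
      ∑ i, (z i - z' i).natAbs := by
  classical
  have := flat_up_aux S n hS γ hγ z z' Finset.univ
  simpa using this

end Power

/-! ## Lamplighter groups -/

section Lamp

variable {A : Type} [Group A]

/-- Translation action on finitely supported lamp configurations. -/
noncomputable def actN (A : Type) [Group A] : A →* MulAut (Multiplicative (A →₀ ZMod 2)) where
  toFun a := AddEquiv.toMultiplicative (Finsupp.domCongr (Equiv.mulLeft a))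
  map_one' := by
    apply MulEquiv.ext
    intro f
    apply Multiplicative.toAdd.injective
    apply Finsupp.ext
    intro p
    change (Multiplicative.toAdd f) ((1 : A)⁻¹ * p) = (Multiplicative.toAdd f) p
    rw [inv_one, one_mul]
  map_mul' a b := by
    apply MulEquiv.ext
    intro f
    apply Multiplicative.toAdd.injective
    apply Finsupp.ext
    intro p
    change (Multiplicative.toAdd f) ((a * b)⁻¹ * p) = (Multiplicative.toAdd f) (b⁻¹ * (a⁻¹ * p))
    rw [mul_inv_rev, mul_assoc]

/-- The (restricted) wreath product of the group of order two by `A`. -/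
abbrev LL (A : Type) [Group A] : Type :=
  SemidirectProduct (Multiplicative (A →₀ ZMod 2)) A (actN A)

/-- Value of the lamp at a position. -/
noncomputable def lamp (g : LL A) (p : A) : ZMod 2 := (Multiplicative.toAdd g.left) p

theorem lamp_mul (g h : LL A) (p : A) : lamp (g * h) p = lamp g p + lamp h (g.right⁻¹ * p) := by
  simp only [lamp, SemidirectProduct.mul_left, toAdd_mul, Finsupp.add_apply]
  rfl

/-- The generator toggling the lamp at the current position. -/
noncomputable def tog : LL A := SemidirectProduct.inl (Multiplicative.ofAdd (Finsupp.single 1 1))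

theorem lamp_tog_one : lamp (tog : LL A) 1 = 1 := by
  simp [lamp, tog]

theorem lamp_tog_ne (p : A) (h : p ≠ 1) : lamp (tog : LL A) p = 0 := by
  simp only [lamp, tog, SemidirectProduct.left_inl, toAdd_ofAdd]
  exact Finsupp.single_eq_of_ne h

theorem lamp_inr (a p : A) : lamp (SemidirectProduct.inr a : LL A) p = 0 := by
  simp [lamp]

/-- Generators. -/
noncomputable def gensL (SA : Finset A) : Finset (LL A) := by
  classical
  exact insert tog (SA.image (fun s => SemidirectProduct.inr s))

theorem mem_gensL (SA : Finset A) (g : LL A) :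
    g ∈ gensL SA ↔ g = tog ∨ ∃ s ∈ SA, g = SemidirectProduct.inr s := by
  classical
  simp only [gensL, Finset.mem_insert, Finset.mem_image]
  constructor
  · rintro (h | ⟨s, h1, h2⟩)
    · exact Or.inl h
    · exact Or.inr ⟨s, h1, h2.symm⟩
  · rintro (h | ⟨s, h1, h2⟩)
    · exact Or.inl h
    · exact Or.inr ⟨s, h1, h2.symm⟩

theorem gensL_closure (SA : Finset A) (hSA : Subgroup.closure (SA : Set A) = ⊤) :
    Subgroup.closure (gensL SA : Set (LL A)) = ⊤ := by
  classical
  set C := Subgroup.closure (gensL SA : Set (LL A)) with hC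
  have h2 : ∀ a : A, (SemidirectProduct.inr a : LL A) ∈ C := by
    intro a
    have ht : a ∈ Subgroup.closure (SA : Set A) := by rw [hSA]; trivial
    induction ht using Subgroup.closure_induction with
    | mem x hx => exact Subgroup.subset_closure ((mem_gensL SA _).2 (Or.inr ⟨x, hx, rfl⟩))
    | one => rw [map_one]; exact C.one_mem
    | mul x y _ _ hx hy => rw [map_mul]; exact C.mul_mem hx hy
    | inv x _ hx => rw [map_inv]; exact C.inv_mem hx
  have h3 : ∀ a : A, (SemidirectProduct.inl (Multiplicative.ofAdd (Finsupp.single a 1)) :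
      LL A) ∈ C := by
    intro a
    have e : (SemidirectProduct.inl (Multiplicative.ofAdd (Finsupp.single a 1)) : LL A) =
        SemidirectProduct.inr a * tog * (SemidirectProduct.inr a)⁻¹ := by
      have := SemidirectProduct.inl_aut (φ := actN A) a
        (Multiplicative.ofAdd (Finsupp.single (1 : A) (1 : ZMod 2)))
      have e2 : actN A a (Multiplicative.ofAdd (Finsupp.single (1 : A) (1 : ZMod 2))) =
          Multiplicative.ofAdd (Finsupp.single a 1) := by
        apply Multiplicative.toAdd.injective
        change Finsupp.domCongr (Equiv.mulLeft a) (Finsupp.single (1 : A) (1 : ZMod 2)) =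
          Finsupp.single a 1
        simp [Finsupp.domCongr_apply, Finsupp.equivMapDomain_single]
      rw [e2] at this
      rw [this, map_inv]
      rfl
    rw [e]
    refine C.mul_mem (C.mul_mem (h2 a) ?_) (C.inv_mem (h2 a))
    exact Subgroup.subset_closure ((mem_gensL SA _).2 (Or.inl rfl))
  have h4 : ∀ w : A →₀ ZMod 2, (SemidirectProduct.inl (Multiplicative.ofAdd w) : LL A) ∈ C := by
    intro w
    induction w using Finsupp.induction_linear with
    | zero => rw [ofAdd_zero, map_one]; exact C.one_mem
    | add f g hf hg => rw [ofAdd_add, map_mul]; exact C.mul_mem hf hg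
    | single a b =>
      rcases (by decide : ∀ b : ZMod 2, b = 0 ∨ b = 1) b with rfl | rfl
      · rw [Finsupp.single_zero, ofAdd_zero, map_one]; exact C.one_mem
      · exact h3 a
  rw [eq_top_iff]
  intro g _
  rw [← SemidirectProduct.inl_left_mul_inr_right g]
  exact C.mul_mem (h4 _) (h2 _)

/-- Edges of the Cayley graph. -/
theorem step (SA : Finset A) (g h : LL A) (hgh : (cayley (gensL SA)).Adj g h) :
    (h.right = g.right ∧ ∀ p, p ≠ g.right → lamp h p = lamp g p) ∨
    ((∀ p, lamp h p = lamp g p) ∧ (cayley SA).dist g.right h.right ≤ 1) := by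
  rw [cayley_adj] at hgh
  obtain ⟨-, hgh⟩ := hgh
  have base : ∀ g h : LL A, g⁻¹ * h ∈ gensL SA →
      (h.right = g.right ∧ ∀ p, p ≠ g.right → lamp h p = lamp g p) ∨
      ((∀ p, lamp h p = lamp g p) ∧ (cayley SA).dist g.right h.right ≤ 1) := by
    intro g h hgh
    rw [mem_gensL] at hgh
    rcases hgh with h1 | ⟨s, hs, h1⟩
    · have h2 : h = g * tog := by rw [← h1, mul_inv_cancel_left]
      left
      rw [h2]
      constructor
      · rw [SemidirectProduct.mul_right]; simp [tog]
      · intro p hp
        rw [lamp_mul, lamp_tog_ne, add_zero]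
        intro e
        exact hp (inv_mul_eq_one.1 e).symm
    · have h2 : h = g * SemidirectProduct.inr s := by rw [← h1, mul_inv_cancel_left]
      right
      rw [h2]
      constructor
      · intro p
        rw [lamp_mul, lamp_inr, add_zero]
      · rw [SemidirectProduct.mul_right, SemidirectProduct.right_inr]
        by_cases e : g.right = g.right * s
        · rw [← e, SimpleGraph.dist_self]; omega
        · refine (SimpleGraph.dist_eq_one_iff_adj.2 ?_).le
          rw [cayley_adj]
          exact ⟨e, Or.inl (by rw [inv_mul_cancel_left]; exact hs)⟩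
  rcases hgh with hgh | hgh
  · exact base g h hgh
  · rcases base h g hgh with ⟨h1, h2⟩ | ⟨h1, h2⟩
    · left
      exact ⟨h1.symm, fun p hp => (h2 p (by rw [← h1]; exact hp)).symm⟩
    · right
      exact ⟨fun p => (h1 p).symm, by rw [SimpleGraph.dist_comm]; exact h2⟩

variable (SA : Finset A) (hSA : Subgroup.closure (SA : Set A) = ⊤)

include hSA

theorem right_lip (g h : LL A) :
    (cayley SA).dist g.right h.right ≤ (cayley (gensL SA)).dist g h := by
  have hconn := cayley_connected SA hSA
  refine lip_of_edges _ (cayley_connected _ (gensL_closure SA hSA))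
    (fun g h => (cayley SA).dist g.right h.right) (fun a => SimpleGraph.dist_self)
    (fun a b c => hconn.dist_triangle) ?_ g h
  intro a b hab
  rcases step SA a b hab with ⟨h1, -⟩ | ⟨-, h2⟩
  · simp only [h1, SimpleGraph.dist_self]; omega
  · exact h2

omit hSA in
theorem inr_adj (c : LL A) (a b : A) (hab : (cayley SA).Adj a b) :
    (cayley (gensL SA)).Adj (c * SemidirectProduct.inr a) (c * SemidirectProduct.inr b) := by
  rw [cayley_adj] at hab ⊢
  refine ⟨?_, ?_⟩
  · intro e
    exact hab.1 (SemidirectProduct.inr_injective (mul_left_cancel e))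
  · have e : ∀ a b : A, (c * SemidirectProduct.inr a)⁻¹ * (c * SemidirectProduct.inr b) =
        (SemidirectProduct.inr (a⁻¹ * b) : LL A) := by
      intro a b
      rw [map_mul, map_inv]
      group
    rw [e, e, mem_gensL, mem_gensL]
    exact hab.2.imp (fun h => Or.inr ⟨_, h, rfl⟩) (fun h => Or.inr ⟨_, h, rfl⟩)

theorem inr_up (c : LL A) (a b : A) :
    (cayley (gensL SA)).dist (c * SemidirectProduct.inr a) (c * SemidirectProduct.inr b) ≤
      (cayley SA).dist a b := by
  refine lip_of_edges _ (cayley_connected _ hSA) (fun a b => (cayley (gensL SA)).dist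
    (c * SemidirectProduct.inr a) (c * SemidirectProduct.inr b))
    (fun a => SimpleGraph.dist_self)
    (fun a b d => (cayley_connected _ (gensL_closure SA hSA)).dist_triangle) ?_ a b
  intro a b hab
  exact (SimpleGraph.dist_eq_one_iff_adj.2 (inr_adj SA c a b hab)).le

/-- A lamp that changes along a walk is within the length of the walk from the start. -/
theorem lamp_walk {x y : LL A} (p : (cayley (gensL SA)).Walk x y) (q : A)
    (hq : lamp x q ≠ lamp y q) : (cayley SA).dist x.right q ≤ p.length := by
  induction p with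
  | nil => exact absurd rfl hq
  | @cons x b y hxb w ih =>
    rw [SimpleGraph.Walk.length_cons]
    by_cases hb : lamp b q = lamp y q
    · rcases step SA x b hxb with ⟨-, h2⟩ | ⟨h1, -⟩
      · by_cases hqx : q = x.right
        · rw [hqx, SimpleGraph.dist_self]; omega
        · exact absurd ((h2 q hqx).symm.trans hb) hq
      · exact absurd ((h1 q).symm.trans hb) hq
    · have h3 := ih hb
      have h4 : (cayley SA).dist x.right b.right ≤ 1 := by
        rcases step SA x b hxb with ⟨h1, -⟩ | ⟨-, h2⟩
        · rw [h1, SimpleGraph.dist_self]; omega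
        · exact h2
      have h5 := (cayley_connected SA hSA).dist_triangle (u := x.right) (v := b.right) (w := q)
      omega

/-- The lamp subgroup has asymptotic dimension zero. -/
theorem asdim_lamps : AsdimLE (cayley (gensL SA)) {g : LL A | g.right = 1} 0 := by
  classical
  intro R
  set B : Finset A := (Pool.Agent.Helper475.Geod.ball_finite SA hSA R).toFinset with hB
  have memB : ∀ a, a ∈ B ↔ (cayley SA).dist 1 a ≤ R := by
    intro a
    rw [hB, Set.Finite.mem_toFinset]
    rfl
  refine ⟨A → ZMod 2, fun c => {g | g.right = 1 ∧ (fun a => if a ∈ B then 0 else lamp g a) = c},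
    (B.finsupp (fun _ => Finset.univ)).sup (fun f => (cayley (gensL SA)).dist 1
      (SemidirectProduct.inl (Multiplicative.ofAdd f))), ?_, ?_, ?_, ?_⟩
  · intro c g hg
    exact hg.1
  · intro g hg
    exact ⟨_, hg, rfl⟩
  · rintro c x ⟨hx1, hx2⟩ y ⟨hy1, hy2⟩
    have e1 : (cayley (gensL SA)).dist x y = (cayley (gensL SA)).dist 1 (x⁻¹ * y) := by
      rw [← cayley_dist_left _ (gensL_closure SA hSA) x 1 (x⁻¹ * y), mul_one,
        mul_inv_cancel_left]
    have hr : (x⁻¹ * y).right = 1 := by
      rw [SemidirectProduct.mul_right, SemidirectProduct.inv_right, hx1, hy1]; simp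
    have e2 : x⁻¹ * y = SemidirectProduct.inl (Multiplicative.ofAdd
        (Multiplicative.toAdd (x⁻¹ * y).left)) := by
      conv_lhs => rw [← SemidirectProduct.inl_left_mul_inr_right (x⁻¹ * y)]
      rw [hr, map_one, mul_one]
      rfl
    rw [e1, e2]
    refine Finset.le_sup (f := fun f => (cayley (gensL SA)).dist 1
      (SemidirectProduct.inl (Multiplicative.ofAdd f))) ?_
    rw [Finset.mem_finsupp_iff]
    refine ⟨?_, fun i _ => Finset.mem_univ _⟩
    intro a ha
    by_contra hcon
    rw [Finsupp.mem_support_iff] at ha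
    apply ha
    change lamp (x⁻¹ * y) a = 0
    have h1 : lamp y a = lamp x a := by
      have h2 := congrFun (hx2.trans hy2.symm) a
      simp only [if_neg hcon] at h2
      exact h2.symm
    have h3 : y = x * (x⁻¹ * y) := by group
    have h4 := lamp_mul x (x⁻¹ * y) a
    rw [← h3, hx1, inv_one, one_mul, h1] at h4
    exact left_eq_add.1 h4
  · intro y hy
    have hsub : {i : A → ZMod 2 | ∃ z ∈ {g : LL A | g.right = 1 ∧
        (fun a => if a ∈ B then 0 else lamp g a) = i},
        (cayley (gensL SA)).dist y z ≤ R} ⊆ {fun a => if a ∈ B then 0 else lamp y a} := by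
      rintro c ⟨z, ⟨hz1, hz2⟩, hz3⟩
      rw [Set.mem_singleton_iff, ← hz2]
      funext a
      by_cases ha : a ∈ B
      · simp [ha]
      · simp only [ha, if_false]
        by_contra hne
        obtain ⟨p, hp⟩ := (cayley_connected _ (gensL_closure SA hSA)).exists_walk_length_eq_dist y z
        have h1 := lamp_walk SA hSA p a (fun e => hne e.symm)
        have hy' : y.right = 1 := hy
        rw [hp, hy'] at h1
        exact ha ((memB a).2 (h1.trans hz3))
    calc _ ≤ ({fun a => if a ∈ B then 0 else lamp y a} : Set (A → ZMod 2)).encard :=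
          Set.encard_le_encard hsub
      _ = 1 := Set.encard_singleton _
      _ ≤ _ := by norm_num

/-- The lamp subgroup coarsely separates as soon as the base group has a ray leaving the
identity. -/
theorem separates (a : ℕ → A) (ha : ∀ i, (cayley SA).Adj (a i) (a (i + 1)))
    (ha' : ∀ i, i ≤ (cayley SA).dist (a i) 1) :
    CoarselySeparates (cayley (gensL SA)) {g : LL A | g.right = 1} := by
  classical
  have hdeep : ∀ (c : LL A), c.right = 1 → ∀ i, ∀ x ∈ {g : LL A | g.right = 1},
      i ≤ (cayley (gensL SA)).dist (c * SemidirectProduct.inr (a i)) x := by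
    intro c hc i x hx
    have h1 := right_lip SA hSA (c * SemidirectProduct.inr (a i)) x
    have hx' : x.right = 1 := hx
    rw [SemidirectProduct.mul_right, SemidirectProduct.right_inr, hc, one_mul, hx'] at h1
    exact (ha' i).trans h1
  set W : Set (LL A) := {v | ∀ x ∈ {g : LL A | g.right = 1}, 1 < (cayley (gensL SA)).dist v x}
    with hW
  have hmem : ∀ (c : LL A), c.right = 1 → ∀ i, c * SemidirectProduct.inr (a (i + 2)) ∈ W := by
    intro c hc i x hx
    have := hdeep c hc (i + 2) x hx
    omega
  -- points of one ray lie in one component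
  have hray : ∀ (c : LL A) (hc : c.right = 1) (i : ℕ),
      ((cayley (gensL SA)).induce W).Reachable ⟨_, hmem c hc 0⟩ ⟨_, hmem c hc i⟩ := by
    intro c hc i
    induction i with
    | zero => exact SimpleGraph.Reachable.refl _
    | succ i ih =>
      refine ih.trans (SimpleGraph.Adj.reachable ?_)
      rw [SimpleGraph.comap_adj]
      have := inr_adj SA c _ _ (ha (i + 2))
      exact this
  -- the lamp at the identity is constant along walks in the complement
  have hconst : ∀ {u v : W}, ((cayley (gensL SA)).induce W).Walk u v →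
      lamp u.1 1 = lamp v.1 1 := by
    intro u v p
    induction p with
    | nil => rfl
    | @cons u b v hub q ih =>
      rw [← ih]
      rw [SimpleGraph.comap_adj] at hub
      have hu : u.1.right ≠ 1 := by
        intro h
        have := u.2 u.1 h
        rw [SimpleGraph.dist_self] at this
        omega
      rcases step SA u.1 b.1 hub with ⟨-, h2⟩ | ⟨h1, -⟩
      · exact (h2 1 (fun e => hu e.symm)).symm
      · exact (h1 1).symm
  have hone : (1 : LL A).right = 1 := rfl
  have htog : (tog : LL A).right = 1 := rfl
  refine ⟨1, one_pos, ((cayley (gensL SA)).induce W).connectedComponentMk ⟨_, hmem 1 hone 0⟩,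
    ((cayley (gensL SA)).induce W).connectedComponentMk ⟨_, hmem tog htog 0⟩, ?_, ?_, ?_⟩
  · intro h
    rw [SimpleGraph.ConnectedComponent.eq] at h
    obtain ⟨p⟩ := h
    have h1 := hconst p
    simp only at h1
    rw [lamp_mul, lamp_mul, lamp_inr, lamp_inr, lamp_tog_one] at h1
    simp [lamp] at h1
  · intro D
    refine ⟨⟨_, hmem 1 hone D⟩, ?_, ?_⟩
    · rw [SimpleGraph.ConnectedComponent.mem_supp_iff, SimpleGraph.ConnectedComponent.eq]
      exact (hray 1 hone D).symm
    · intro x hx
      have := hdeep 1 hone (D + 2) x hx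
      simp only
      omega
  · intro D
    refine ⟨⟨_, hmem tog htog D⟩, ?_, ?_⟩
    · rw [SimpleGraph.ConnectedComponent.mem_supp_iff, SimpleGraph.ConnectedComponent.eq]
      exact (hray tog htog D).symm
    · intro x hx
      have := hdeep tog htog (D + 2) x hx
      simp only
      omega

omit hSA in
theorem torsion_lamp (hA : ∀ a : A, IsOfFinOrder a) (g : LL A) : IsOfFinOrder g := by
  obtain ⟨m, hm, h1⟩ := isOfFinOrder_iff_pow_eq_one.1 (hA g.right)
  rw [isOfFinOrder_iff_pow_eq_one]
  refine ⟨m * 2, by omega, ?_⟩
  have h2 : (g ^ m).right = 1 := by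
    have : (g ^ m).right = g.right ^ m :=
      map_pow (SemidirectProduct.rightHom : LL A →* A) g m
    rw [this, h1]
  rw [pow_mul, pow_two]
  apply SemidirectProduct.ext
  · apply Multiplicative.toAdd.injective
    apply Finsupp.ext
    intro p
    change lamp (g ^ m * g ^ m) p = lamp (1 : LL A) p
    rw [lamp_mul, h2, inv_one, one_mul]
    have h3 : lamp (1 : LL A) p = 0 := by simp [lamp]
    rw [h3]
    exact CharTwo.add_self_eq_zero _
  · rw [SemidirectProduct.mul_right, h2, one_mul]
    rfl

end Lamp

/-- For every `n ≥ 2` there is a finitely generated group of asymptotic dimension at least `n`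
whose Cayley graph is coarsely separated by a subset of asymptotic dimension zero, but which does
not split over any subgroup. -/
theorem result : ∀ n : ℕ, 2 ≤ n →
    ∃ (G : Type) (_ : Group G) (S : Finset G),
      Subgroup.closure (S : Set G) = ⊤ ∧
      ¬ AsdimLE (cayley S) Set.univ (n - 1) ∧
      (∃ X : Set G, AsdimLE (cayley S) X 0 ∧ CoarselySeparates (cayley S) X) ∧
      ∀ H : Subgroup G, ¬ SplitsOver H := by
  classical
  intro n hn
  obtain ⟨T, instT, S, hS, hinf, htor⟩ := Pool.Agent.Helper475.Torsion.exists_inf_torsion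
  obtain ⟨γ₀, hγ₀⟩ := Pool.Agent.Helper475.Geod.exists_geodesic_line T S hS
  set γ : ℤ → T := fun i => (γ₀ 0)⁻¹ * γ₀ i with hγdef
  have hγ : ∀ i j : ℤ, (cayley S).dist (γ i) (γ j) = (i - j).natAbs := by
    intro i j
    simp only [hγdef]
    rw [cayley_dist_left S hS]
    exact hγ₀ i j
  have hγ1 : γ 0 = 1 := by simp [hγdef]
  have hSA := gensA_closure S n hS
  refine ⟨LL (Fin n → T), inferInstance, gensL (gensA S n), gensL_closure _ hSA, ?_,
    ⟨{g | g.right = 1}, asdim_lamps _ hSA, ?_⟩, ?_⟩
  · intro h
    refine Pool.Agent.Helper475.Asdim.asdim_lower (cayley (gensL (gensA S n))) n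
      (fun x => SemidirectProduct.inr (fun i : Fin n => γ ((x i : ℕ) : ℤ))) n ?_ ?_ ?_
    · intro x y hxy
      have h1 := inr_up (gensA S n) hSA 1 (fun i : Fin n => γ ((x i : ℕ) : ℤ))
        (fun i : Fin n => γ ((y i : ℕ) : ℤ))
      rw [one_mul, one_mul] at h1
      refine h1.trans ((flat_up S n hS γ hγ _ _).trans ?_)
      calc ∑ i : Fin n, ((x i : ℤ) - (y i : ℤ)).natAbs ≤ ∑ _i : Fin n, 1 := by
            apply Finset.sum_le_sum
            intro i _
            rcases hxy i i.2 with h | h <;> rw [h] <;> push_cast <;> omega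
        _ = n := by simp
    · intro x y i hi
      have h1 := right_lip (gensA S n) hSA
        (SemidirectProduct.inr (fun i : Fin n => γ ((x i : ℕ) : ℤ)))
        (SemidirectProduct.inr (fun i : Fin n => γ ((y i : ℕ) : ℤ)))
      rw [SemidirectProduct.right_inr, SemidirectProduct.right_inr] at h1
      exact (flat_low S n hS γ hγ (fun i : Fin n => ((x i : ℕ) : ℤ))
        (fun i : Fin n => ((y i : ℕ) : ℤ)) ⟨i, hi⟩).trans h1
    · intro r
      obtain ⟨ι, U, D, h1, h2, h3, h4⟩ := h r
      refine ⟨ι, U, D, fun x => h2 x (Set.mem_univ _), h3, fun x => ?_⟩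
      have h5 := h4 x (Set.mem_univ _)
      have e : n - 1 + 1 = n := by omega
      rw [e] at h5
      exact h5
  · refine separates (gensA S n) hSA
      (fun i => fun j : Fin n => γ (if (j : ℕ) = 0 then ((i : ℕ) : ℤ) else 0)) ?_ ?_
    · intro i
      have h1 := flat_adj S n γ hγ (fun j : Fin n => if (j : ℕ) = 0 then ((i : ℕ) : ℤ) else 0)
        ⟨0, by omega⟩
      have e : (fun j : Fin n => γ ((Function.update (fun j : Fin n => if (j : ℕ) = 0 then
          ((i : ℕ) : ℤ) else 0) ⟨0, by omega⟩ ((if (0 : ℕ) = 0 then ((i : ℕ) : ℤ) else 0) + 1)) j)) =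
          fun j : Fin n => γ (if (j : ℕ) = 0 then (((i + 1 : ℕ)) : ℤ) else 0) := by
        funext j
        by_cases hj : j = ⟨0, by omega⟩
        · subst hj; simp
        · have hj' : (j : ℕ) ≠ 0 := fun e => hj (Fin.ext e)
          rw [Function.update_of_ne hj]
          simp [hj']
      rw [← e]
      exact h1
    · intro i
      have h1 := flat_low S n hS γ hγ (fun j : Fin n => if (j : ℕ) = 0 then ((i : ℕ) : ℤ) else 0)
        (fun _ => 0) ⟨0, by omega⟩
      have e : (fun _ : Fin n => γ 0) = 1 := by
        funext j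
        exact hγ1
      rw [e] at h1
      simpa using h1
  · intro H
    exact torsion_not_splits (torsion_lamp (fun a => IsOfFinOrder.pi (x := a) (fun i => htor (a i)))) H

end Pool.Agent.Results.MP_ac3292_al.NoSplit
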